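import Pool.Agent.MP77a250.Stmt
import Pool.Agent.MP77a250.Transl

set_option autoImplicit false

open CategoryTheory Limits AlgebraicGeometry Pool.Agent.MP77a250.St

namespace Pool.Agent.Results.MP_77a250_ag.BoundedSeshadri

/-- There are a complex projective manifold `X` with large algebraic fundamental group, an ample
line bundle `L` on `X` and a number `N > 0` such that the Seshadri number of `M_p` along the
diagonal of `X' × X'` is at most `N` for every connected finite étale cover `p : X' ⟶ X`.

The manifold is a smooth double cover of `E × E`, for an elliptic curve `E` with complex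
multiplication by the Gaussian integers. -/
theorem result :
    ∃ (X : Scheme.{0}) (s : X ⟶ SC) (L : LineBundle X) (N : ℝ),
      IsProjectiveManifold s ∧ HasLargeAlgFundGroup X ∧ L.IsAmple ∧ 0 < N ∧
        ∀ (X' : Scheme.{0}) (p : X' ⟶ X), IsFiniteEtale p → ConnectedSpace X' →
          seshadriDiag s p L ≤ (N : EReal) :=
  Pool.Agent.MP77a250.Tr.main

end Pool.Agent.Results.MP_77a250_ag.BoundedSeshadri
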